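import Pool.Agent.MP_bd94e8_al.H97A.B2a

/-!
Connections pass from the algebra to the subspace problem.
-/

set_option autoImplicit false
set_option linter.unusedVariables false
set_option linter.unusedSectionVars false

namespace Pool.Agent.MP_bd94e8_al.H83A

open Module Function H83 H83.H H89

namespace B2A

section
variable {A : Type} [Ring A] {F : Type} [Field F] {S Z Ω P : Type} [AddCommGroup S] [Module A S]
  [Module F S] [SMulCommClass A F S] [AddCommGroup Z] [Module A Z] [AddCommGroup Ω] [Module A Ω]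
  [AddCommGroup P] [Module A P]

/-- The set `N0` as a subspace. -/
def N0s {ι : S →ₗ[A] Z} (hR : Red F ι) (κ : Ω →ₗ[A] P) : Submodule F (Ω →ₗ[A] S) where
  carrier := N0 ι κ
  zero_mem' := ⟨0, by simp⟩
  add_mem' := by
    rintro a b ⟨g, h⟩ ⟨g', h'⟩
    exact ⟨g + g', by rw [LinearMap.add_comp, h, h', LinearMap.comp_add]⟩
  smul_mem' := by
    rintro c a ⟨g, h⟩
    obtain ⟨τ, hτ⟩ := hR.ext c
    refine ⟨τ ∘ₗ g, LinearMap.ext fun x => ?_⟩
    have h1 : g (κ x) = ι (a x) := LinearMap.congr_fun h x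
    change τ (g (κ x)) = ι (c • a x)
    rw [h1, hτ]

end

theorem finS (C A F S : Type) [CommRing C] [Ring A] [Algebra C A] [Module.Finite C A] [Field F]
    [Algebra C F] [AddCommGroup S] [Module A S] [Module F S] [IsSimpleModule A S]
    (hS : ∀ (c : C) (x : S), algebraMap C A c • x = algebraMap C F c • x) : Module.Finite F S := by
  letI := modC C A S
  haveI := towC C A S
  haveI : IsScalarTower C F S := IsScalarTower.of_algebraMap_smul fun c x => (hS c x).symm
  haveI : Module.Finite C S := Module.Finite.trans A S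
  exact Module.Finite.of_restrictScalars_finite C F S

end B2A

open B2A in
theorem sB2 : SB2 := by
  intro C A F S Z _ _ _ _ _ _ _ _ _ _ _ _ _ _ ι hR hS Ω P Y _ _ _ _ _ _ _ _ _ κ π Pt _ n hP hB hC
    V _ _ _ _ _ hV U hU hUK i
  classical
  haveI := hR.simple
  haveI := finS C A F S hS
  haveI : Nontrivial S := IsSimpleModule.nontrivial A S
  obtain ⟨W, _, _, _, _, _, _, _, _, j, r, hj, hjF, hr, hrK⟩ :=
    exists_W C A F (K C) S V hR.scal hS hV
  let NN : Submodule (K C) (Ω →ₗ[A] W) :=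
    { carrier := {η | ∀ lam, r lam ∘ₗ η ∈ N0s hR κ}
      zero_mem' := fun lam => by rw [LinearMap.comp_zero]; exact zero_mem _
      add_mem' := fun ha hb lam => by rw [LinearMap.comp_add]; exact add_mem (ha lam) (hb lam)
      smul_mem' := fun c a ha lam => by
        obtain ⟨lam', h⟩ := hrK lam c
        rw [show r lam ∘ₗ (c • a) = r lam' ∘ₗ a from LinearMap.ext fun x => h _]
        exact ha lam' }
  have hrj : ∀ lam v (τ : Ω →ₗ[A] S), r lam ∘ₗ j v ∘ₗ τ = lam v • τ := fun lam v τ =>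
    LinearMap.ext fun x => hr lam v _
  have hN1 : ∀ v, ∀ τ ∈ N0s hR κ, j v ∘ₗ τ ∈ NN := fun v τ hτ lam => by
    rw [hrj]
    exact Submodule.smul_mem _ _ hτ
  let sg : (Pt → V) →ₗ[K C] (Ω →ₗ[A] W) :=
    { toFun := fun u => ∑ p, j (u p) ∘ₗ n p
      map_add' := fun a b => by simp [LinearMap.add_comp, Finset.sum_add_distrib]
      map_smul' := fun c a => by simp [Finset.smul_sum, LinearMap.smul_comp] }
  have hsg : ∀ u, sg u = ∑ p, j (u p) ∘ₗ n p := fun _ => rfl
  have hind : ∀ u, sg u ∈ NN → u = 0 := fun u hu => funext fun p =>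
    (Module.forall_dual_apply_eq_zero_iff F (u p)).1 fun lam => by
      have h1 : r lam ∘ₗ sg u = ∑ p, lam (u p) • n p := by
        refine LinearMap.ext fun x => ?_
        simp only [hsg, LinearMap.comp_apply, LinearMap.sum_apply, map_sum, hr,
          LinearMap.smul_apply]
      exact congrFun (hB.indep (fun p => lam (u p)) (h1 ▸ hu lam)) p
  let Ut : Submodule (K C) (Ω →ₗ[A] W) :=
    { carrier := {η | ∃ u ∈ U, η - sg u ∈ NN}
      zero_mem' := ⟨0, U.zero_mem, by simp⟩
      add_mem' := by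
        rintro a b ⟨u, hu, h⟩ ⟨u', hu', h'⟩
        exact ⟨u + u', U.add_mem hu hu', by rw [map_add, add_sub_add_comm]; exact add_mem h h'⟩
      smul_mem' := by
        rintro c a ⟨u, hu, h⟩
        exact ⟨c • u, hUK c u hu, by rw [map_smul, ← smul_sub]; exact NN.smul_mem c h⟩ }
  have hNU : ∀ η ∈ NN, η ∈ Ut := fun η h => ⟨0, U.zero_mem, by rwa [map_zero, sub_zero]⟩
  obtain ⟨M, _, _, _, _, _, _, _, inc, hlen, hinj, hK, hUt, hZ⟩ :=
    exists_push (C := C) hP.inj hP.exact Ut (by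
      rintro η ⟨u, hu, h⟩ γ γ' hγ
      choose c hc using fun p => hB.span (n p ∘ₗ γ')
      refine ⟨H89.act (Matrix.of fun q p => c p q) u, hU _ ⟨γ, γ', hγ, hc⟩ u hu, ?_⟩
      have h1 : η ∘ₗ γ' - sg (H89.act (Matrix.of fun q p => c p q) u) =
          (η - sg u) ∘ₗ γ' + ∑ p, j (u p) ∘ₗ (n p ∘ₗ γ' - ∑ q, c p q • n q) := by
        refine LinearMap.ext fun x => ?_
        simp only [hsg, H89.act, Matrix.of_apply, map_sum, LinearMap.sub_apply, LinearMap.add_apply,
          LinearMap.comp_apply, LinearMap.sum_apply, map_sub, hjF, LinearMap.smul_apply,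
          Finset.sum_sub_distrib]
        rw [Finset.sum_comm]
        abel
      rw [h1]
      refine NN.add_mem (fun lam => ?_) (NN.sum_mem fun p _ => hN1 _ _ (hc p))
      obtain ⟨g, hg⟩ := h lam
      exact ⟨g ∘ₗ γ, by
        rw [LinearMap.comp_assoc, hγ, ← LinearMap.comp_assoc, hg]; rfl⟩)
      fun w => hNU _ fun lam => ⟨ι ∘ₗ r lam ∘ₗ w, rfl⟩
  obtain ⟨D, hD⟩ := hC M hlen i
  have hext : ∀ v, ∃ h : Z →ₗ[A] M, ∀ x, h (ι x) = inc (j v x) := by
    intro v
    rcases hP.alt with h | ⟨s, g, s', τ, h1, h2, h3⟩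
    · let e := LinearEquiv.ofBijective ι ⟨hR.inj, h⟩
      exact ⟨inc ∘ₗ j v ∘ₗ e.symm.toLinearMap, fun x =>
        congrArg (fun y => inc (j v y)) (e.symm_apply_apply x)⟩
    · obtain ⟨p, hp⟩ := (hUt _).1 (hNU _ (hN1 v τ ⟨g, h2.symm⟩))
      refine ⟨p ∘ₗ s, fun x => ?_⟩
      have h4 : κ (s' x) = s (ι x) := LinearMap.congr_fun h1 x
      have h5 : τ (s' x) = x := LinearMap.congr_fun h3 x
      have h6 : p (κ (s' x)) = inc (j v (τ (s' x))) := LinearMap.congr_fun hp _
      rw [LinearMap.comp_apply, ← h4, h6, h5]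
  have hD' : ∀ v, ∃ v', ∀ x, inc (j v' x) = D (inc (j v x)) := by
    intro v
    obtain ⟨h, hh⟩ := hext v
    obtain ⟨φ, hφ⟩ := exists_fac hinj (D ∘ₗ inc ∘ₗ j v) fun x => by
      have := hZ Z (ι x) (fun h => LinearMap.congr_fun (hP.kill h) x) (D ∘ₗ h)
      rwa [LinearMap.comp_apply, hh] at this
    obtain ⟨v', rfl⟩ := hj.2 φ
    exact ⟨v', fun x => LinearMap.congr_fun hφ x⟩
  choose D' hD' using hD'
  have hext' : ∀ v v', (∀ x, inc (j v x) = inc (j v' x)) → v = v' := fun v v' h =>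
    hj.1 (LinearMap.ext fun x => hinj (h x))
  refine ⟨⟨⟨D', fun a b => hext' _ _ fun x => ?_⟩, fun c a => hext' _ _ fun x => ?_⟩,
    fun c a => hext' _ _ fun x => ?_, fun u hu => ?_⟩
  · simp only [map_add, LinearMap.add_apply, hD']
  · simp only [RingHom.id_apply, hjF, hD']
  · change inc (j (D' _) x) = inc (j (_ + c • D' a) x)
    simp only [map_add, map_smul, LinearMap.add_apply, LinearMap.smul_apply, hD', hK, hD]
  · obtain ⟨p, hp⟩ := (hUt (sg u)).1 ⟨u, hu, by simp⟩
    obtain ⟨u', hu', h⟩ := (hUt (sg fun q => D' (u q))).2 ⟨D ∘ₗ p, LinearMap.ext fun x => by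
      have h1 : p (κ x) = inc (sg u x) := LinearMap.congr_fun hp x
      change D (p (κ x)) = inc (sg _ x)
      simp only [h1, hsg, LinearMap.sum_apply, LinearMap.comp_apply, map_sum, hD']⟩
    rw [← map_sub] at h
    rw [← sub_eq_zero.1 (hind _ h)] at hu'
    exact hu'

end Pool.Agent.MP_bd94e8_al.H83A
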