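import Pool.Agent.MP_bd94e8_al.H83A.Kit

/-!
The bimodule `V ⊗ S` and the pushout of a presentation.
-/

set_option autoImplicit false
set_option linter.unusedVariables false
set_option linter.unusedSectionVars false

namespace Pool.Agent.MP_bd94e8_al.H83A

open Module Function TensorProduct H83 H83.H H89

namespace B2A

theorem exists_W (C A F R S V : Type) [CommRing C] [Ring A] [Algebra C A] [Field F] [Algebra C F]
    [CommRing R] [Algebra C R] [AddCommGroup S] [Module A S] [Module F S] [SMulCommClass A F S]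
    [Module.Finite F S] [Nontrivial S] [AddCommGroup V] [Module F V] [Module R V]
    [SMulCommClass F R V] [Module.Finite R V]
    (hsc : ∀ σ : S →ₗ[A] S, ∃ c : F, ∀ x, σ x = c • x)
    (hS : ∀ (c : C) (x : S), algebraMap C A c • x = algebraMap C F c • x)
    (hV : ∀ (c : C) (x : V), algebraMap C R c • x = algebraMap C F c • x) :
    ∃ (W : Type) (_ : AddCommGroup W) (_ : Module A W) (_ : Module R W) (_ : SMulCommClass A R W)
      (_ : Module C W) (_ : IsScalarTower C R W) (_ : IsScalarTower C A W) (_ : Module.Finite R W)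
      (j : V →ₗ[R] (S →ₗ[A] W)) (r : Dual F V → (W →ₗ[A] S)), Bijective j ∧
      (∀ (c : F) v s, j (c • v) s = j v (c • s)) ∧ (∀ lam v s, r lam (j v s) = lam v • s) ∧
      ∀ lam (c : R), ∃ lam', ∀ w, r lam (c • w) = r lam' w := by
  classical
  letI : Module A (V ⊗[F] S) := Module.compHom _
    ((Module.End.lTensorAlgHom F S V).toRingHom.comp (Module.toModuleEnd F S))
  have hA : ∀ (a : A) (v : V) (s : S), a • (v ⊗ₜ[F] s) = v ⊗ₜ[F] (a • s) := fun a v s => rfl
  haveI : SMulCommClass A R (V ⊗[F] S) := ⟨fun a c w => by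
    induction w using TensorProduct.induction_on with
    | zero => simp
    | tmul v s => rw [smul_tmul', hA, hA, smul_tmul']
    | add x y hx hy => rw [smul_add, smul_add, smul_add, smul_add, hx, hy]⟩
  letI : Module C (V ⊗[F] S) := Module.compHom _ (algebraMap C R)
  haveI : IsScalarTower C R (V ⊗[F] S) := IsScalarTower.of_algebraMap_smul fun _ _ => rfl
  haveI : IsScalarTower C A (V ⊗[F] S) := IsScalarTower.of_algebraMap_smul fun c w => by
    change _ = algebraMap C R c • w
    induction w using TensorProduct.induction_on with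
    | zero => simp
    | tmul v s => rw [hA, hS, smul_tmul', hV, smul_tmul]
    | add x y hx hy => rw [smul_add, smul_add, hx, hy]
  haveI : Module.Finite R (V ⊗[F] S) := by
    obtain ⟨d, s, hs⟩ := Module.Finite.exists_fin (R := F) (M := S)
    let f : (Fin d → V) →ₗ[R] V ⊗[F] S :=
      { toFun := fun w => ∑ i, w i ⊗ₜ[F] s i
        map_add' := fun x y => by simp [add_tmul, Finset.sum_add_distrib]
        map_smul' := fun c x => by simp [Finset.smul_sum, smul_tmul'] }
    refine Module.Finite.of_surjective f fun w => ?_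
    change w ∈ LinearMap.range f
    induction w using TensorProduct.induction_on with
    | zero => exact zero_mem _
    | tmul v x =>
      obtain ⟨c, rfl⟩ := (Submodule.mem_span_range_iff_exists_fun F).1
        (show x ∈ Submodule.span F (Set.range s) from hs ▸ trivial)
      exact ⟨fun i => c i • v, by simp [f, tmul_sum, smul_tmul]⟩
    | add x y hx hy => exact add_mem hx hy
  let j : V →ₗ[R] (S →ₗ[A] V ⊗[F] S) :=
    { toFun := fun v => ⟨⟨fun s => v ⊗ₜ[F] s, fun x y => tmul_add _ _ _⟩, fun a x => rfl⟩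
      map_add' := fun x y => LinearMap.ext fun s => add_tmul _ _ _
      map_smul' := fun c x => LinearMap.ext fun s => rfl }
  have hj : ∀ v s, j v s = v ⊗ₜ[F] s := fun _ _ => rfl
  let r0 : Dual F V → (V ⊗[F] S →ₗ[F] S) := fun lam =>
    (TensorProduct.lid F S).toLinearMap ∘ₗ lam.rTensor S
  have hr0 : ∀ lam v s, r0 lam (v ⊗ₜ[F] s) = lam v • s := fun lam v s => by simp [r0]
  let r : Dual F V → (V ⊗[F] S →ₗ[A] S) := fun lam => ⟨(r0 lam).toAddHom, fun a w => by
    change r0 lam (a • w) = a • r0 lam w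
    induction w using TensorProduct.induction_on with
    | zero => simp
    | tmul v s => rw [hA, hr0, hr0, smul_comm a]
    | add x y hx hy => rw [smul_add, map_add, map_add, hx, hy, smul_add]⟩
  have hr : ∀ lam w, r lam w = r0 lam w := fun _ _ => rfl
  have hsep : ∀ w : V ⊗[F] S, (∀ lam, r0 lam w = 0) → w = 0 := by
    intro w hw
    let b := Module.Basis.ofVectorSpace F V
    have h1 : ∀ (w : V ⊗[F] S) i, equivFinsuppOfBasisLeft b w i = r0 (b.coord i) w := by
      intro w i
      induction w using TensorProduct.induction_on with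
      | zero => simp
      | tmul v s => rw [hr0]; simp
      | add x y hx hy => rw [map_add, map_add, Finsupp.add_apply, hx, hy]
    refine (equivFinsuppOfBasisLeft b).injective ?_
    ext i
    rw [h1, hw, map_zero, Finsupp.zero_apply]
  obtain ⟨s0, hs0⟩ := exists_ne (0 : S)
  refine ⟨V ⊗[F] S, inferInstance, inferInstance, inferInstance, inferInstance, inferInstance,
    inferInstance, inferInstance, inferInstance, j, r,
    ⟨(injective_iff_map_eq_zero _).2 fun v hv => ?_, fun φ => ?_⟩,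
    fun c v s => smul_tmul _ _ _, hr0, fun lam c => ?_⟩
  · refine (Module.forall_dual_apply_eq_zero_iff F v).1 fun lam => ?_
    have h1 := hr0 lam v s0
    rw [← hj, hv, LinearMap.zero_apply, map_zero] at h1
    exact (smul_eq_zero.1 h1.symm).resolve_right hs0
  · obtain ⟨mu, hmu⟩ : ∃ mu : Dual F S, mu s0 = 1 := by
      obtain ⟨mu, hmu⟩ := not_forall.1 (mt (Module.forall_dual_apply_eq_zero_iff F s0).1 hs0)
      exact ⟨(mu s0)⁻¹ • mu, by simp [hmu]⟩
    let l : V ⊗[F] S →ₗ[F] V := (TensorProduct.rid F V).toLinearMap ∘ₗ mu.lTensor V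
    have hl : ∀ (lam : Dual F V) w, lam (l w) = mu (r0 lam w) := by
      intro lam w
      induction w using TensorProduct.induction_on with
      | zero => simp
      | tmul v s => rw [hr0]; simp [l, mul_comm]
      | add x y hx hy => rw [map_add, map_add, map_add, map_add, hx, hy]
    refine ⟨l (φ s0), LinearMap.ext fun s => sub_eq_zero.1 (hsep _ fun lam => ?_)⟩
    obtain ⟨c, hc⟩ := hsc (r lam ∘ₗ φ)
    have h1 : ∀ x, r0 lam (φ x) = c • x := hc
    rw [map_sub, hj, hr0, hl, h1, h1, map_smul, hmu, smul_eq_mul, mul_one, sub_self]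
  · haveI : SMulCommClass R F V := SMulCommClass.symm _ _ _
    refine ⟨lam ∘ₗ DistribSMul.toLinearMap F V c, fun w => ?_⟩
    rw [hr, hr]
    induction w using TensorProduct.induction_on with
    | zero => simp
    | tmul v s => rw [smul_tmul', hr0, hr0]; rfl
    | add x y hx hy => rw [smul_add, map_add, map_add, hx, hy]

variable {C : Type} [CommRing C] [IsArtinianRing C] {A : Type} [Ring A] [Algebra C A]
  [Module.Finite C A]

/-- Coefficients as linear maps. -/
def cfA (C : Type) [CommRing C] (A : Type) [Ring A] (M : Type) [AddCommGroup M] [Module C M]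
    [Module A M] (g : Gam) : H C M →ₗ[A] M :=
  ⟨⟨fun y => y.cf g, fun _ _ => rfl⟩, fun _ _ => rfl⟩

theorem artK : IsArtinianRing (K C) := inferInstanceAs (IsArtinian (K C) (H C C))

theorem exists_push {Ω P Y W : Type} [AddCommGroup Ω] [Module A Ω] [Module.Finite A Ω]
    [AddCommGroup P] [Module A P] [Module.Finite A P] [Projective A P] [AddCommGroup Y]
    [Module A Y] [AddCommGroup W] [Module A W] [Module (K C) W] [SMulCommClass A (K C) W]
    [Module C W] [IsScalarTower C (K C) W] [IsScalarTower C A W] [Module.Finite (K C) W]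
    {κ : Ω →ₗ[A] P} {π : P →ₗ[A] Y} (hκ : Injective κ) (hex : Exact κ π)
    (Ut : Submodule (K C) (Ω →ₗ[A] W))
    (h1 : ∀ η ∈ Ut, ∀ (γ : P →ₗ[A] P) (γ' : Ω →ₗ[A] Ω), γ ∘ₗ κ = κ ∘ₗ γ' → η ∘ₗ γ' ∈ Ut)
    (h2 : ∀ w : P →ₗ[A] W, w ∘ₗ κ ∈ Ut) :
    ∃ (M : Type) (_ : AddCommGroup M) (_ : Module A M) (_ : Module (K C) M)
      (_ : SMulCommClass A (K C) M) (_ : Module C M) (_ : IsScalarTower C (K C) M)
      (_ : IsScalarTower C A M) (inc : W →ₗ[A] M), length (K C) M ≠ ⊤ ∧ Injective inc ∧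
      (∀ (c : K C) w, inc (c • w) = c • inc w) ∧
      (∀ η, η ∈ Ut ↔ ∃ p : P →ₗ[A] M, p ∘ₗ κ = inc ∘ₗ η) ∧
      ∀ (Z : Type) [AddCommGroup Z] [Module A Z] (z : Z), (∀ h : Z →ₗ[A] Y, h z = 0) →
        ∀ h : Z →ₗ[A] M, h z ∈ LinearMap.range inc := by
  classical
  letI := modC C A Ω
  haveI := towC C A Ω
  letI := modC C A P
  haveI := towC C A P
  letI := modC C A Y
  haveI := towC C A Y
  haveI := finC C A Ω
  haveI := finC C A P
  haveI : IsArtinianRing (K C) := artK
  haveI : IsNoetherian (K C) (Ω →ₗ[A] W) := by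
    obtain ⟨n, e, he⟩ := hom_fin (A := A) (B := Ω) (R := K C) (N := W)
    exact isNoetherian_of_injective e he
  obtain ⟨N, η, hη⟩ := Submodule.fg_iff_exists_fin_generating_family.1 (IsNoetherian.noetherian Ut)
  obtain ⟨Φ, hΦA, hΦ⟩ := exists_extA (C := C) (∑ i, η i ∘ₗ LinearMap.proj i : (Fin N → Ω) →ₗ[A] W)
  let κN : (Fin N → Ω) →ₗ[C] (Fin N → P) := (κ.compLeft (Fin N)).restrictScalars C
  let πN : (Fin N → P) →ₗ[C] (Fin N → Y) := (π.compLeft (Fin N)).restrictScalars C
  have hκN : Injective (map κN) := map_inj fun x y h => funext fun i => hκ (congrFun h i)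
  have hexN : Exact (map κN) (map πN) := map_exact fun y =>
    ⟨fun h => by
      choose x hx using fun i => (hex (y i)).1 (congrFun h i)
      exact ⟨x, funext hx⟩, by
      rintro ⟨x, rfl⟩
      exact funext fun i => hex.apply_apply_eq_zero _⟩
  have hκA : ∀ (a : A) x, map κN (a • x) = a • map κN x := fun a x =>
    H.ext fun g => funext fun i => κ.map_smul a _
  have hπA : ∀ (a : A) x, map πN (a • x) = a • map πN x := fun a x =>
    H.ext fun g => funext fun i => π.map_smul a _
  let ψ : H C (Fin N → Ω) →ₗ[K C] W × H C (Fin N → P) := LinearMap.prod (-Φ) (map κN)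
  have hψ : ∀ x, ψ x = (-Φ x, map κN x) := fun _ => rfl
  have hW : ∀ (a : A), ∀ x ∈ LinearMap.range ψ, a • x ∈ LinearMap.range ψ := by
    rintro a _ ⟨x, rfl⟩
    exact ⟨a • x, by rw [hψ, hψ, hΦA, hκA, Prod.smul_mk, smul_neg]⟩
  let mk := toA (Quo.mk _ hW) (Quo.smul_mk _ hW)
  have hmk : ∀ x y, mk x = mk y ↔ ∃ ξ, (-Φ ξ, map κN ξ) = x - y := fun x y => by
    rw [← sub_eq_zero, ← map_sub]
    exact Quo.mk_eq_zero _ hW
  have hmkK : ∀ (c : K C) x, mk (c • x) = c • mk x := (Quo.mk _ hW).map_smul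
  refine ⟨Quo _ hW, inferInstance, inferInstance, inferInstance, inferInstance, inferInstance,
    inferInstance, inferInstance, mk ∘ₗ LinearMap.inl A _ _, ?_, ?_, fun c w => ?_,
    fun ζ => ⟨fun hζ => ?_, ?_⟩, fun Z _ _ z hz h => ?_⟩
  · haveI : Module.Finite (K C) (Quo _ hW) := Module.Finite.of_surjective _ (Quo.surj _ hW)
    exact length_ne_top
  · intro x y h
    obtain ⟨ξ, hξ⟩ := (hmk _ _).1 h
    have h3 : map κN ξ = map κN 0 := by
      rw [map_zero]
      exact (congrArg Prod.snd hξ).trans (sub_self _)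
    rw [hκN h3, map_zero, neg_zero] at hξ
    exact sub_eq_zero.1 (congrArg Prod.fst hξ).symm
  · rw [LinearMap.comp_apply, LinearMap.comp_apply, ← hmkK]
    simp
  · rw [← hη] at hζ
    induction hζ using Submodule.span_induction with
    | mem x hx =>
      obtain ⟨i, rfl⟩ := hx
      refine ⟨mk ∘ₗ LinearMap.inr A _ _ ∘ₗ sgl C _ A ∘ₗ LinearMap.single A (fun _ => P) i,
        LinearMap.ext fun x => (hmk _ _).2 ⟨sgl C _ A (Pi.single i x), ?_⟩⟩
      rw [hΦ, map_sgl (A' := A)]
      refine Prod.ext ?_ ?_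
      · simp [Pi.single_apply, apply_ite]
      · simp only [LinearMap.inr_apply, LinearMap.inl_apply, Prod.snd_sub, sub_zero,
          LinearMap.comp_apply, LinearMap.single_apply]
        congr 1
        exact funext fun l => Pi.apply_single (fun _ => κ) (fun _ => κ.map_zero) i x l
    | zero => exact ⟨0, by simp⟩
    | add x y _ _ hx hy =>
      obtain ⟨p, hp⟩ := hx
      obtain ⟨q, hq⟩ := hy
      exact ⟨p + q, by rw [LinearMap.add_comp, hp, hq, LinearMap.comp_add]⟩
    | smul c x _ hx =>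
      obtain ⟨p, hp⟩ := hx
      refine ⟨c • p, LinearMap.ext fun y => ?_⟩
      have h3 : p (κ y) = mk (x y, 0) := LinearMap.congr_fun hp y
      change c • p (κ y) = mk (c • x y, 0)
      rw [h3, ← hmkK]
      simp
  · rintro ⟨p, hp⟩
    obtain ⟨q, hq⟩ := Module.projective_lifting_property mk p (Quo.surj _ hW)
    have h3 : ∀ x, ∃ ξ, (-Φ ξ, map κN ξ) = q (κ x) - (ζ x, 0) := fun x =>
      (hmk _ _).1 ((LinearMap.congr_fun hq _).trans (LinearMap.congr_fun hp x))
    obtain ⟨z', hz'⟩ := exists_fac (f := toA (map κN) hκA) hκN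
      (LinearMap.snd A _ _ ∘ₗ q ∘ₗ κ) fun x => by
        obtain ⟨ξ, hξ⟩ := h3 x
        exact ⟨ξ, (congrArg Prod.snd hξ).trans (sub_zero _)⟩
    have h4 : ∀ x, map κN (z' x) = (q (κ x)).2 := fun x => LinearMap.congr_fun hz' x
    have h5 : ζ = (LinearMap.fst A _ _ ∘ₗ q) ∘ₗ κ + toA Φ hΦA ∘ₗ z' := LinearMap.ext fun x => by
      obtain ⟨ξ, hξ⟩ := h3 x
      have h6 : ξ = z' x := hκN (((congrArg Prod.snd hξ).trans (sub_zero _)).trans (h4 x).symm)
      have h7 : -Φ ξ = (q (κ x)).1 - ζ x := congrArg Prod.fst hξ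
      change ζ x = (q (κ x)).1 + Φ (z' x)
      rw [← h6, ← sub_neg_eq_add, h7, sub_sub_cancel]
    rw [h5]
    refine Ut.add_mem (h2 _) ?_
    obtain ⟨y, rfl⟩ := (toHom_bij (C := C)).2 z'
    let Θ : H C (Ω →ₗ[A] (Fin N → Ω)) →ₗ[K C] (Ω →ₗ[A] W) :=
      { toFun := fun y => toA Φ hΦA ∘ₗ toHom C y
        map_add' := fun a b => by rw [map_add, LinearMap.comp_add]
        map_smul' := fun c a => LinearMap.ext fun x => by
          rw [map_smul]
          exact Φ.map_smul c _ }
    let Q : Submodule C (Ω →ₗ[A] (Fin N → Ω)) :=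
      { carrier := {γ' | ∃ γ : P →ₗ[A] (Fin N → P), γ ∘ₗ κ = κ.compLeft (Fin N) ∘ₗ γ'}
        zero_mem' := ⟨0, by simp⟩
        add_mem' := by
          rintro a b ⟨γ, h⟩ ⟨δ, h'⟩
          exact ⟨γ + δ, by rw [LinearMap.add_comp, h, h', LinearMap.comp_add]⟩
        smul_mem' := by
          rintro c a ⟨γ, h⟩
          refine ⟨c • γ, LinearMap.ext fun x => ?_⟩
          have h6 : γ (κ x) = κN (a x) := LinearMap.congr_fun h x
          change c • γ (κ x) = κN (c • a x)
          rw [h6, map_smul] }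
    refine mem_of_cf (A := C) Q (Ut.comap Θ) ?_ y fun g => ?_
    · rintro γ' ⟨γ, h⟩
      have h6 : Θ (sgl C _ C γ') = ∑ i, η i ∘ₗ (LinearMap.proj i ∘ₗ γ') := by
        refine LinearMap.ext fun x => ?_
        change Φ (toHom C (sgl C _ C γ') x) = _
        rw [toHom_sgl, LinearMap.comp_apply, hΦ]
        simp
      rw [Submodule.mem_comap, h6]
      exact Ut.sum_mem fun i _ => h1 _ (hη ▸ Submodule.subset_span ⟨i, rfl⟩)
        (LinearMap.proj i ∘ₗ γ) _ (LinearMap.ext fun x => congrFun (LinearMap.congr_fun h x) i)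
    · exact ⟨cfA C A _ g ∘ₗ LinearMap.snd A _ _ ∘ₗ q, LinearMap.ext fun x =>
        (congrArg (fun w => cf w g) (h4 x)).symm⟩
  · let qq : Quo _ hW →ₗ[K C] H C (Fin N → Y) :=
      (LinearMap.range ψ).liftQ (map πN ∘ₗ LinearMap.snd _ _ _) (by
        rintro _ ⟨x, rfl⟩
        exact hexN.apply_apply_eq_zero x)
    have hqq : ∀ x, qq (mk x) = map πN x.2 := fun _ => rfl
    have hqA : ∀ (a : A) x, qq (a • x) = a • qq x := fun a x => by
      obtain ⟨x, rfl⟩ := Quo.surj _ hW x
      exact hπA a x.2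
    obtain ⟨x, hx⟩ := Quo.surj _ hW (h z)
    have h3 : map πN x.2 = 0 := by
      rw [← hqq, show mk x = h z from hx]
      exact H.ext fun g => funext fun i =>
        hz (LinearMap.proj i ∘ₗ cfA C A _ g ∘ₗ toA qq hqA ∘ₗ h)
    obtain ⟨ξ, hξ⟩ := (hexN _).1 h3
    refine ⟨x.1 + Φ ξ, Eq.trans (Eq.symm ((hmk _ _).2 ⟨ξ, ?_⟩)) hx⟩
    rw [hξ]
    ext <;> simp

end B2A

end Pool.Agent.MP_bd94e8_al.H83A
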